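import Pool.Agent.Y365.FS.Odd
import Pool.Agent.W497.CC.Sum

/-!
# The Singer-Hopf inequality for cubical manifolds whose vertex links have small join factors

A vertex link is admitted if it has a join factor of odd rank, or if each of its join factors, of
dimension `e - 1` say, has `e = 2` (a polygon, of any length) or at most `max (2 e + 6) (3 e)`
vertices.
-/

set_option autoImplicit false

namespace Pool.Agent.Results.MP_9d0d86_gt.CubicalFactorBound

open Pool.Agent.W497.FS Pool.Agent.W497.CC

/-- the flag sphere `S` of dimension `2 m - 1` has a join factor `C` of dimension `e - 1` with `e`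
odd (each facet `G` meets `C` in `e` vertices), or every join factor `C`, of dimension `e - 1`, has
`e ≤ 2` or at most `max (2 e + 6) (3 e)` vertices -/
def SmallFactors (m : ℕ) {n : ℕ} (S : Finset (Finset (Fin n))) : Prop :=
  (∃ C : Finset (Fin n), IsFactor S C ∧ ∃ G ∈ S, G.card = 2 * m ∧ Odd (G ∩ C).card) ∨
    ∀ C : Finset (Fin n), IsFactor S C → (∀ F ∈ S, F ⊆ C → F.card ≤ 2) ∨
      ∃ F ∈ S, F ⊆ C ∧ C.card ≤ max (2 * F.card + 6) (3 * F.card)

/-- the link of every face `F` of even size `< 2 m` has a vertex `v` such that every 4-element face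
of the link contains `v` or a neighbour of `v` -/
def HasNice (m : ℕ) {n : ℕ} (S : Finset (Finset (Fin n))) : Prop :=
  ∀ F ∈ S, Even F.card → F.card < 2 * m → ∃ v, v ∉ F ∧ insert v F ∈ S ∧
    ∀ G ∈ S, G.card = 4 → Disjoint G F → G ∪ F ∈ S → ∃ g ∈ G, ({v, g} : Finset (Fin n)) ∈ S

/-- The Singer-Hopf inequality for nonpositively curved cubical manifolds of dimension `2 m` such
that every vertex link has small join factors (or nice vertices in the links of all its faces of
even size). -/
theorem result (k : Type) [Field k] (m : ℕ) (P : Type) [Fintype P] [PartialOrder P] (dim : P → ℕ)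
    (hP : IsCubical P dim)
    (hL : ∀ v : P, dim v = 0 → ∃ (n : ℕ) (S : Finset (Finset (Fin n))),
      IsLink v S ∧ IsFlagSphere k (2 * m) S ∧ (SmallFactors m S ∨ HasNice m S)) :
    0 ≤ (-1) ^ m * chi P dim := by
  classical
  have h1 : ∀ v : P, ∃ p : Σ n : ℕ, Finset (Finset (Fin n)), dim v = 0 →
      IsLink v p.2 ∧ IsFlagSphere k (2 * m) p.2 ∧ (SmallFactors m p.2 ∨ HasNice m p.2) := by
    intro v
    by_cases hv : dim v = 0
    · obtain ⟨n, S, h⟩ := hL v hv
      exact ⟨⟨n, S⟩, fun _ => h⟩
    · exact ⟨⟨0, ∅⟩, fun h => absurd h hv⟩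
  choose p hp using h1
  have h2 := chi_eq hP (fun v => (p v).1) (fun v => (p v).2) (fun v hv => (hp v hv).1)
    (fun v hv => by
      obtain ⟨r, hr⟩ := (hp v hv).2.1
      exact hr.1)
  have h3 : (0 : ℚ) ≤ (-1) ^ m * ((chi P dim : ℤ) : ℚ) := by
    rw [h2, Finset.mul_sum]
    refine Finset.sum_nonneg fun v hv => ?_
    obtain ⟨-, hS, hc⟩ := hp v (Finset.mem_filter.mp hv).2
    rcases hc with (hc | hc) | hc
    · rw [Y365.FS.cd_odd hS hc, mul_zero]
    · exact Y365.FS.cd_factors hS fun C hC => Or.inr (hc C hC)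
    · exact cd_four hS hc
  exact_mod_cast h3

end Pool.Agent.Results.MP_9d0d86_gt.CubicalFactorBound
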