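import Pool.Agent.Y132.SI.Gam
import Pool.Agent.W497.CC.Sum

/-!
# The Singer-Hopf inequality for cubical manifolds whose vertex links are in the `ℓ²` class

`G` is a graph on `Fin n`, `cliques G` its flag complex.  `HSph d G`: the flag complex is a real homology
`(d-1)`-sphere, i.e. the link of every simplex `T` has the reduced real homology of the sphere of dimension
`d - 1 - |T|`.

The class `AQ d` contains the order complexes of the graded posets of length `d` which are Gorenstein* over `F_2`
(for example the barycentric subdivisions of all the triangulated `(d-1)`-spheres), is closed under full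
subcomplexes, joins, `d ↦ d + 1`, `2 m + 1 ↦ 2 m`, gluing along full subcomplexes of the class `d - 2`, adding
vertices and deleting edges with link in the class `d - 2`, and contains, for `d = 2 m + 2`, every flag complex for
which the vertices whose links are not in the class `2 m + 1` span a subcomplex of dimension at most `m`; its
subclass `AM d` is closed under edge subdivisions.

A finite cubical complex all of whose vertex links are flag complexes is nonpositively curved (Gromov), hence
aspherical; it is a real homology manifold of dimension `2 m` if all its vertex links are real homology spheres of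
dimension `2 m - 1`.
-/

set_option autoImplicit false

namespace Pool.Agent.Results.MP_9d0d86_gt.CubicalL2Class

open Pool.Agent.W497.FS Pool.Agent.W497.CC Pool.Agent.TH652.Above Pool.Agent.Y132.SI Pool.Agent.W907.SG

open Classical in
theorem omega_cliques {n : ℕ} (G : SimpleGraph (Fin n)) : omega (cliques G) = chiW G := by
  rw [omega, cliques, chiW, Finset.sum_filter]
  refine Finset.sum_congr rfl fun σ _ => ?_
  by_cases h : G.IsClique (σ : Set (Fin n))
  · rw [if_pos h, if_pos h, div_pow]
  · rw [if_neg h, if_neg h]

/-- The Singer-Hopf inequality `(-1)^m χ ≥ 0` for the finite cubical complexes all of whose vertex links are flag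
real homology `(2 m - 1)`-spheres in the class `AQ (2 m)`. -/
theorem result (m : ℕ) (P : Type) [Fintype P] [PartialOrder P] (dim : P → ℕ) (hP : IsCubical P dim)
    (hL : ∀ v : P, dim v = 0 → ∃ (n : ℕ) (G : SimpleGraph (Fin n)),
      IsLink v (cliques G) ∧ HSph (2 * m) G ∧ AQ (2 * m) G) :
    0 ≤ (-1) ^ m * chi P dim := by
  classical
  have h1 : ∀ v : P, ∃ p : Σ n : ℕ, SimpleGraph (Fin n), dim v = 0 →
      IsLink v (cliques p.2) ∧ HSph (2 * m) p.2 ∧ AQ (2 * m) p.2 := by
    intro v
    by_cases hv : dim v = 0
    · obtain ⟨n, G, h⟩ := hL v hv
      exact ⟨⟨n, G⟩, fun _ => h⟩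
    · exact ⟨⟨0, ⊥⟩, fun h => absurd h hv⟩
  choose p hp using h1
  have h2 := chi_eq hP (fun v => (p v).1) (fun v => cliques (p v).2) (fun v hv => (hp v hv).1)
    (fun v _ F hF U hU => mem_cliques.2 ((mem_cliques.1 hF).subset (Finset.coe_subset.2 hU)))
  have h3 : (0 : ℚ) ≤ (-1) ^ m * ((chi P dim : ℤ) : ℚ) := by
    rw [h2, Finset.mul_sum]
    refine Finset.sum_nonneg fun v hv => ?_
    obtain ⟨-, hS, hA⟩ := hp v (Finset.mem_filter.mp hv).2
    rw [omega_cliques]
    exact charney_davis_AQ hS hA
  exact_mod_cast h3

end Pool.Agent.Results.MP_9d0d86_gt.CubicalL2Class
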