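import Pool.Agent.Y489.SM.Gc

/-!
# The Singer–Hopf sign for submanifolds of low codimension in spaces of nonpositive curvature operator

The curvature tensor of a submanifold is, by the Gauss equation, the sum of the restriction `R₀` of
the curvature tensor of the ambient space to the tangent space `V` and of the tensor `extR β` of the
second fundamental form `β`, a symmetric bilinear map from `V` to the normal space. If the normal
space is the orthogonal sum of `W` and `W'` and `β`, `β'` are the components, then the second part is
`extR β + extR β'`.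

The proof: a symmetric bilinear map with values in a space of dimension `p` whose tensor has
nonpositive sectional curvatures has a nullity space of codimension at most `2 p` (asymptotic vectors,
asymptotic subspaces, regular vectors; file `Pool/Agent/Y489/SM/Ld.lean`). For `p = 2` the tensor
lives on a subspace of dimension four, and two such pieces are covered by a starting result on the
integrand.
-/

set_option autoImplicit false

namespace Pool.Agent.Results.MP_9d0d86_gt.LowCodimensionSubmanifolds

open Pool.Agent.W666.GB Pool.Agent.W669.HD MeasureTheory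

variable {V W : Type} [NormedAddCommGroup V] [InnerProductSpace ℝ V]
  [NormedAddCommGroup W] [InnerProductSpace ℝ W] {m : ℕ}

/-- second fundamental forms: symmetric bilinear maps from the tangent space `V` to the normal
space `W` -/
structure SecondForm (β : V → V → W) : Prop where
  symm : ∀ x y, β x y = β y x
  add : ∀ x x' y, β (x + x') y = β x y + β x' y
  smul : ∀ (t : ℝ) (x y : V), β (t • x) y = t • β x y

/-- the part of the curvature tensor given by the second fundamental form (Gauss equation) -/
noncomputable def extR (β : V → V → W) (x y z w : V) : ℝ :=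
  inner ℝ (β x z) (β y w) - inner ℝ (β x w) (β y z)

/-- second fundamental forms with values in a space of dimension at most `p` and nonpositive
extrinsic sectional curvatures -/
structure NonposForm (p : ℕ) (β : V → V → W) : Prop where
  form : SecondForm β
  dim : Module.finrank ℝ W ≤ p
  sec : ∀ x y : V, inner ℝ (β x x) (β y y) - ‖β x y‖ ^ 2 ≤ 0

/-- the bilinear map -/
def SecondForm.map {β : V → V → W} (h : SecondForm β) : V →ₗ[ℝ] V →ₗ[ℝ] W :=
  LinearMap.mk₂ ℝ β h.add h.smul
    (fun x y y' => by rw [h.symm, h.add, h.symm y, h.symm y'])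
    (fun t x y => by rw [h.symm, h.smul, h.symm y])

/-- `R` is the curvature tensor of a submanifold: the ambient curvature operator is at most `-δ` on
the bivectors of the tangent space, and the normal space is the sum of two spaces of dimension at most
two, in each of which the second fundamental form has nonpositive extrinsic curvatures. -/
def LowCodim (δ : ℝ) (R : V → V → V → V → ℝ) : Prop :=
  ∃ (β β' : V → V → EuclideanSpace ℝ (Fin 2)) (R₀ : V → V → V → V → ℝ),
    NonposForm 2 β ∧ NonposForm 2 β' ∧ AlgCurv R₀ ∧
    OpNonneg (negT (addT R₀ fun x y z w => δ * unitT x y z w)) ∧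
    ∀ x y z w, R x y z w = extR β x y z w + extR β' x y z w + R₀ x y z w

theorem low_bound {W' : Type} [NormedAddCommGroup W'] [InnerProductSpace ℝ W']
    [FiniteDimensional ℝ W] [FiniteDimensional ℝ W'] (e : OrthonormalBasis (Fin m × Bool) ℝ V)
    {β : V → V → W} {β' : V → V → W'} (h : NonposForm 2 β) (h' : NonposForm 2 β')
    {R R₀ : V → V → V → V → ℝ} {δ : ℝ} (hδ : 0 ≤ δ) (hR₀ : AlgCurv R₀)
    (hop : OpNonneg (negT (addT R₀ fun x y z w => δ * unitT x y z w)))
    (hR : ∀ x y z w, R x y z w = extR β x y z w + extR β' x y z w + R₀ x y z w) :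
    roundGB m δ ≤ (-1) ^ m * gbc e R :=
  Pool.Agent.Y489.SM.case_pieces e h.form.map h'.form.map h.dim h'.dim h.form.symm h'.form.symm
    (fun x y => by
      rw [Pool.Agent.Y489.SM.gauss_sec h.form.symm]
      exact h.sec x y)
    (fun x y => by
      rw [Pool.Agent.Y489.SM.gauss_sec h'.form.symm]
      exact h'.sec x y) hδ hR₀ hop hR

/-- **The Singer–Hopf sign for submanifolds of low codimension** in spaces of nonpositive curvature
operator: the pointwise inequality and the integrated form, in every even dimension. -/
theorem result :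
    (∀ (m : ℕ) (V : Type) [NormedAddCommGroup V] [InnerProductSpace ℝ V]
      (e : OrthonormalBasis (Fin m × Bool) ℝ V) (R : V → V → V → V → ℝ) (δ : ℝ),
      0 ≤ δ → LowCodim δ R → roundGB m δ ≤ (-1) ^ m * gbc e R) ∧
    (∀ (m : ℕ) (M : Type) [MeasurableSpace M] (μ : Measure M) (K : CurvField m M) (δ : M → ℝ),
      (∀ p, 0 ≤ δ p ∧ LowCodim (δ p) (K.R p)) →
      0 ≤ (-1) ^ m * ∫ p, K.gb p ∂μ ∧
        (Integrable K.gb μ → ∫ p, roundGB m (δ p) ∂μ ≤ (-1) ^ m * ∫ p, K.gb p ∂μ)) := by
  have h1 : ∀ (m : ℕ) (V : Type) [NormedAddCommGroup V] [InnerProductSpace ℝ V]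
      (e : OrthonormalBasis (Fin m × Bool) ℝ V) (R : V → V → V → V → ℝ) (δ : ℝ),
      0 ≤ δ → LowCodim δ R → roundGB m δ ≤ (-1) ^ m * gbc e R := by
    rintro m V _ _ e R δ hδ ⟨β, β', R₀, h, h', hR₀, hop, hR⟩
    exact low_bound e h h' hδ hR₀ hop hR
  refine ⟨h1, fun m M _ μ K δ h => ?_⟩
  exact Pool.Agent.Y489.SM.integrated μ K δ (fun p => (h p).1)
    fun p => h1 m (K.V p) (K.e p) (K.R p) (δ p) (h p).1 (h p).2

end Pool.Agent.Results.MP_9d0d86_gt.LowCodimensionSubmanifolds
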